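import Pool.Agent.Q181.Cube.Slice

/-! MP_7cff07_gt: for `r < n` the largest degree with non-zero reduced homology of the
Vietoris-Rips complex of the cube `{0,1}^n` at scale `r` is exactly `2^r - 1`; for the slice of
vertices with `l` ones, with `m = ⌊r/2⌋ + 1 ≤ min(l, n - l)`, it is exactly
`(2m-1 choose m) - 1`.  In particular `N(n,r) ≤ 2^r` and `N_l(n,r) ≤ (2m-1 choose m)`,
uniformly in `n` and `l`; the vanishing holds for arbitrary sets of vertices of the cube. -/

set_option autoImplicit false

namespace Pool.Agent.Results.MP_7cff07_gt.TopDegrees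

open Pool.Agent.W273.VR Q181.Cube

/-- The number of degrees `q ≥ 0` in which the reduced integral homology of the complex with set
of nonempty faces `K` is non-zero. -/
noncomputable def numNonzero {V : Type} [Fintype V] [DecidableEq V] (K : Finset V → Prop) : ℕ :=
  Set.ncard {q : ℕ | HomologyNonzero K q}

theorem result :
    (∀ n r : ℕ, r < n →
      IsGreatest {q : ℕ | HomologyNonzero (VRFace n r) q} (2 ^ r - 1)) ∧
    (∀ n l r : ℕ, r / 2 + 1 ≤ l → r / 2 + 1 ≤ n - l →
      IsGreatest {q : ℕ | HomologyNonzero (SliceFace n l r) q}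
        ((2 * (r / 2) + 1).choose (r / 2 + 1) - 1)) ∧
    (∀ n r : ℕ, numNonzero (VRFace n r) ≤ 2 ^ r) ∧
    (∀ n l r : ℕ, numNonzero (SliceFace n l r) ≤ (2 * (r / 2) + 1).choose (r / 2 + 1)) ∧
    (∀ (n r q : ℕ) (X : Finset (Fin n → Bool)), 2 ^ r ≤ q →
      ¬ HomologyNonzero (fun σ : Finset (Fin n → Bool) =>
        σ.Nonempty ∧ σ ⊆ X ∧ ∀ x ∈ σ, ∀ y ∈ σ, hammingDist x y ≤ r) q) := by
  have key : ∀ (S : Set ℕ) (D : ℕ), (∀ q ∈ S, q < D) → S.ncard ≤ D := by
    intro S D h
    have h1 : S ⊆ ↑(Finset.range D) := fun q hq => by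
      rw [Finset.coe_range]; exact h q hq
    have h2 := Set.ncard_le_ncard h1 (Finset.finite_toSet _)
    rwa [Set.ncard_coe_finset, Finset.card_range] at h2
  refine ⟨?_, ?_, ?_, ?_, fun n r q X hq => vanish X r q hq⟩
  · intro n r hr
    refine ⟨top_cube n r hr, fun q hq => ?_⟩
    by_contra h
    exact vanish_cube n r q (by omega) hq
  · intro n l r hl hn
    refine ⟨top_slice n l r hl (by omega), fun q hq => ?_⟩
    by_contra h
    exact vanish_slice n l r q (by omega) hq
  · intro n r
    refine key _ _ fun q hq => ?_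
    by_contra h
    exact vanish_cube n r q (by omega) hq
  · intro n l r
    refine key _ _ fun q hq => ?_
    by_contra h
    exact vanish_slice n l r q (by omega) hq

end Pool.Agent.Results.MP_7cff07_gt.TopDegrees
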